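import Mathlib

/-!
# Square roots of metric spaces are not unique

The metric spaces `A = ℚ` and `B = √2 ℚ` (subspaces of the real line) are not isometric, but `A × A`
and `B × B`, with the Euclidean product metric, are isometric: the rotation of the plane by
45 degrees maps `ℚ²` onto `(√2 ℚ)²`.
-/

namespace Pool.Agent.Results.MP_1231ed_gt.SquareRoots

/-- The Euclidean product metric on `A × A`. -/
noncomputable def rho (A : Type) [MetricSpace A] (x y : A × A) : ℝ :=
  Real.sqrt (dist x.1 y.1 ^ 2 + dist x.2 y.2 ^ 2)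

/-- `A` and `B` are isometric: there is a bijection which preserves the distances. -/
def Isometric (A B : Type) [MetricSpace A] [MetricSpace B] : Prop :=
  ∃ f : A → B, Function.Bijective f ∧ ∀ a a' : A, dist (f a) (f a') = dist a a'

/-- `A × A` and `B × B` with the Euclidean product metrics are isometric. -/
def SquaresIsometric (A B : Type) [MetricSpace A] [MetricSpace B] : Prop :=
  ∃ f : A × A → B × B, Function.Bijective f ∧ ∀ x y : A × A, rho B (f x) (f y) = rho A x y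

/-- the rational numbers -/
abbrev A : Type := {x : ℝ // ∃ q : ℚ, x = q}

/-- the rational multiples of `√2` -/
abbrev B : Type := {x : ℝ // ∃ q : ℚ, x = Real.sqrt 2 * q}

lemma two_ne : Real.sqrt 2 ≠ 0 := by positivity

lemma sq2 : Real.sqrt 2 * Real.sqrt 2 = 2 := Real.mul_self_sqrt (by norm_num)

/-- the rotation by 45 degrees -/
noncomputable def rot (x : A × A) : B × B :=
  (⟨Real.sqrt 2 * ((x.1.1 - x.2.1) / 2), by
      obtain ⟨q, hq⟩ := x.1.2
      obtain ⟨r, hr⟩ := x.2.2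
      exact ⟨(q - r) / 2, by rw [hq, hr]; push_cast; ring⟩⟩,
   ⟨Real.sqrt 2 * ((x.1.1 + x.2.1) / 2), by
      obtain ⟨q, hq⟩ := x.1.2
      obtain ⟨r, hr⟩ := x.2.2
      exact ⟨(q + r) / 2, by rw [hq, hr]; push_cast; ring⟩⟩)

lemma rot_inj : Function.Injective rot := by
  rintro ⟨⟨a, ha⟩, ⟨b, hb⟩⟩ ⟨⟨c, hc⟩, ⟨d, hd⟩⟩ h
  simp only [rot, Prod.mk.injEq, Subtype.mk.injEq] at h
  obtain ⟨h1, h2⟩ := h
  have h1' := mul_left_cancel₀ two_ne h1
  have h2' := mul_left_cancel₀ two_ne h2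
  have e1 : a = c := by linarith
  have e2 : b = d := by linarith
  subst e1 e2
  rfl

lemma rot_surj : Function.Surjective rot := by
  rintro ⟨⟨u, hu⟩, ⟨v, hv⟩⟩
  obtain ⟨p, hp⟩ := hu
  obtain ⟨q, hq⟩ := hv
  refine ⟨(⟨p + q, ⟨p + q, by push_cast; ring⟩⟩, ⟨q - p, ⟨q - p, by push_cast; ring⟩⟩), ?_⟩
  simp only [rot, Prod.mk.injEq, Subtype.mk.injEq]
  constructor
  · rw [hp]; ring
  · rw [hq]; ring

lemma rot_isom (x y : A × A) : rho B (rot x) (rot y) = rho A x y := by
  unfold rho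
  congr 1
  simp only [rot, Subtype.dist_eq, Real.dist_eq, sq_abs]
  have := sq2
  nlinarith [this, sq_nonneg (Real.sqrt 2)]

lemma not_isometric : ¬ Isometric A B := by
  rintro ⟨f, -, hf⟩
  have h := hf ⟨1, 1, by norm_num⟩ ⟨0, 0, by norm_num⟩
  obtain ⟨p, hp⟩ := (f ⟨1, 1, by norm_num⟩).2
  obtain ⟨q, hq⟩ := (f ⟨0, 0, by norm_num⟩).2
  rw [Subtype.dist_eq, Subtype.dist_eq, Real.dist_eq, Real.dist_eq, hp, hq, sub_zero, abs_one,
    ← mul_sub, abs_mul, abs_of_pos (by positivity)] at h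
  have hne : (|(p : ℝ) - q|) ≠ 0 := by
    intro h0
    rw [h0, mul_zero] at h
    norm_num at h
  have h2 : Real.sqrt 2 = ((|p - q|)⁻¹ : ℚ) := by
    push_cast
    exact eq_inv_of_mul_eq_one_left h
  exact irrational_sqrt_two ⟨_, h2.symm⟩

/-- There are metric spaces `A` and `B` which are not isometric, such that `A × A` and `B × B` with the
Euclidean product metrics are isometric. In fact `A = ℚ` and `B = √2 ℚ` are such spaces. -/
theorem result :
    (∃ (A B : Type) (_ : MetricSpace A) (_ : MetricSpace B),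
      SquaresIsometric A B ∧ ¬ Isometric A B) ∧
    SquaresIsometric {x : ℝ // ∃ q : ℚ, x = q} {x : ℝ // ∃ q : ℚ, x = Real.sqrt 2 * q} ∧
    ¬ Isometric {x : ℝ // ∃ q : ℚ, x = q} {x : ℝ // ∃ q : ℚ, x = Real.sqrt 2 * q} :=
  ⟨⟨A, B, inferInstance, inferInstance, ⟨rot, ⟨rot_inj, rot_surj⟩, rot_isom⟩, not_isometric⟩,
    ⟨rot, ⟨rot_inj, rot_surj⟩, rot_isom⟩, not_isometric⟩

end Pool.Agent.Results.MP_1231ed_gt.SquareRoots
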